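import Pool.Agent.H37.CNP.Stmts

/-!
# Row DCO: the conductor is `(D0 + p - 1) / p`
-/

set_option autoImplicit false

namespace Pool.CND

open Finset

section aux

variable {G : Type} [Group G]

theorem UM.mono {b : G → ℤ} {I J : Subgroup G} (h : UM b I) (hJ : J ≤ I) : UM b J where
  pos g hg := h.pos g (hJ hg)
  inv g hg := h.inv g (hJ hg)
  mul g hg g' hg' := h.mul g (hJ hg) g' (hJ hg')

theorem exists_isLst [Finite G] (b : G → ℤ) (I : Subgroup G) {z : G} (hz : z ∈ I) (hz1 : z ≠ 1) :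
    ∃ l : ℤ, IsLst b I l := by
  classical
  obtain ⟨_⟩ := nonempty_fintype G
  obtain ⟨g, hg, hmax⟩ := Finset.exists_max_image ((univ : Finset G).filter
    (fun g => g ∈ I ∧ g ≠ 1)) b ⟨z, by simp [hz, hz1]⟩
  simp only [mem_filter, mem_univ, true_and] at hg hmax
  exact ⟨b g, ⟨g, hg.1, hg.2, rfl⟩, fun g' h1 h2 => hmax g' ⟨h1, h2⟩⟩

theorem IsLst.unique {b : G → ℤ} {I : Subgroup G} {l l' : ℤ} (h : IsLst b I l)
    (h' : IsLst b I l') : l = l' := by
  obtain ⟨g, hg, hg1, rfl⟩ := h.mem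
  obtain ⟨g', hg', hg1', rfl⟩ := h'.mem
  exact le_antisymm (h'.le g hg hg1) (h.le g' hg' hg1')

theorem card_filter_ne_one [Fintype G] (I : Subgroup G)
    [DecidablePred fun g : G => g ∈ {g | g ∈ I ∧ g ≠ 1}] :
    ((((univ : Finset G).filter (fun g => g ∈ {g | g ∈ I ∧ g ≠ 1})).card : ℕ) : ℤ) =
      (Nat.card I : ℤ) - 1 := by
  classical
  have h1 : (univ : Finset G).filter (fun g => g ∈ I) =
      insert 1 ((univ : Finset G).filter (fun g => g ∈ {g | g ∈ I ∧ g ≠ 1})) := by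
    ext g
    simp only [mem_filter, mem_univ, true_and, mem_insert, Set.mem_ofPred_eq]
    by_cases hg : g = 1
    · simp [hg, I.one_mem]
    · simp [hg]
  have h2 : Nat.card I = ((univ : Finset G).filter (fun g => g ∈ I)).card := by
    rw [Nat.card_eq_fintype_card, Fintype.card_subtype]
  have h3 : (1 : G) ∉ (univ : Finset G).filter (fun g => g ∈ {g | g ∈ I ∧ g ≠ 1}) := by
    simp
  rw [h2, h1, card_insert_of_notMem h3]
  push_cast
  ring

theorem card_sub_one_le_sm [Fintype G] {b : G → ℤ} (I : Subgroup G)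
    (h : ∀ g ∈ I, g ≠ 1 → 1 ≤ b g) : (Nat.card I : ℤ) - 1 ≤ sm b {g | g ∈ I ∧ g ≠ 1} := by
  classical
  unfold sm
  rw [← card_filter_ne_one I]
  have h1 : ∀ g ∈ (univ : Finset G).filter (fun g => g ∈ {g | g ∈ I ∧ g ≠ 1}), (1 : ℤ) ≤ b g := by
    intro g hg
    simp only [mem_filter, mem_univ, true_and, Set.mem_ofPred_eq] at hg
    exact h g hg.1 hg.2
  have h2 := Finset.card_nsmul_le_sum _ _ _ h1
  rw [nsmul_eq_mul, mul_one] at h2
  refine le_trans (le_of_eq ?_) (h2.trans (le_of_eq ?_))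
  · congr!
  · congr!

theorem sm_eq_card_sub_one [Fintype G] {b : G → ℤ} (I : Subgroup G)
    (h : ∀ g ∈ I, g ≠ 1 → b g = 1) : sm b {g | g ∈ I ∧ g ≠ 1} = (Nat.card I : ℤ) - 1 := by
  classical
  unfold sm
  rw [← card_filter_ne_one I]
  have h1 : ∀ g ∈ (univ : Finset G).filter (fun g => g ∈ {g | g ∈ I ∧ g ≠ 1}), b g = 1 := by
    intro g hg
    simp only [mem_filter, mem_univ, true_and, Set.mem_ofPred_eq] at hg
    exact h g hg.1 hg.2
  have h2 := Finset.sum_eq_card_nsmul h1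
  rw [nsmul_eq_mul, mul_one] at h2
  convert h2

theorem exists_hyper [Finite G] {p : ℕ} (hp : p.Prime) {A J : Subgroup G} {n : ℕ}
    (hA : Nat.card A = p ^ n) (hJA : J ≤ A) (hne : J ≠ A) :
    ∃ K : Subgroup G, J ≤ K ∧ K ≤ A ∧ Nat.card A = p * Nat.card K := by
  have := Fact.mk hp
  let J' : Subgroup A := J.subgroupOf A
  have hcardJ' : Nat.card J' = Nat.card J := Nat.card_congr (Subgroup.subgroupOfEquivOfLe hJA).toEquiv
  obtain ⟨m, hmn, hm⟩ := (Nat.dvd_prime_pow hp).1 (hA ▸ Subgroup.card_dvd_of_le hJA : Nat.card J ∣ p ^ n)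
  have hlt : m < n := by
    rcases hmn.lt_or_eq with h | h
    · exact h
    · exfalso
      apply hne
      apply Subgroup.eq_of_le_of_card_ge hJA
      rw [hA, hm, h]
  obtain ⟨K', hK', hJK'⟩ := Sylow.exists_subgroup_card_pow_prime_le p (n := m) (m := n - 1)
    (by rw [hA]; exact pow_dvd_pow p (by omega)) J' (by rw [hcardJ', hm]) (by omega)
  refine ⟨K'.map A.subtype, ?_, Subgroup.map_subtype_le K', ?_⟩
  · intro j hj
    exact ⟨⟨j, hJA hj⟩, hJK' (by simpa [J', Subgroup.mem_subgroupOf] using hj), rfl⟩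
  · have h1 : Nat.card (K'.map A.subtype) = Nat.card K' :=
      Nat.card_congr (K'.equivMapOfInjective A.subtype A.subtype_injective).toEquiv.symm
    rw [h1, hK', hA, ← pow_succ']
    congr 1
    omega

end aux

theorem dco_thm (hTRM : S_TRM) (hRMX : S_RMX) (hSLX : S_SLX) (hTMO : S_TMO) (_hRAM : S_RAM)
    (hUMW : S_UMW) (hELH : S_ELH) (hHBX : S_HBX) (hCMB : S_CMB) (hCNV : S_CNV) : S_DCO := by
  classical
  intro p k L G _ _ _ _ _ P ρ A x z D0 hp hchar hρ hEA hcard hx0 hxord hAx hGx hfixA hfixG hzA hz1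
    hD0 hJ
  have := Fact.mk hp
  obtain ⟨_⟩ := nonempty_fintype G
  -- orders
  have hAp : IsPGroup p A := fun a => ⟨1, by
    rw [pow_one]; exact Subtype.ext (hEA.1 a a.2)⟩
  obtain ⟨n, hn⟩ := IsPGroup.iff_card.1 hAp
  have hGn : Nat.card G = p ^ (n + 1) := by rw [hcard, hn, pow_succ']
  have hGp : IsPGroup p G := IsPGroup.of_card hGn
  -- total ramification
  obtain ⟨hAfix, hxA⟩ := hTRM p k L G P ρ A x hp hρ ⟨n, hn⟩ hx0 hxord hAx hfixA (by
    intro J hJA hne
    obtain ⟨K, hJK, hKA, hK⟩ := exists_hyper hp hn hJA hne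
    obtain ⟨y, D, hD, -, hy0, hy, -, hord, -⟩ := hJ K hKA hK
    exact ⟨y, D, hD, hy0, fun j hj => hy j (hJK hj), hord⟩)
  -- all of `G` fixes `P`
  let FX : Subgroup G :=
    { carrier := {g | Fixes P (ρ g)}
      mul_mem' := fun {a b} ha hb => by
        show Fixes P (ρ (a * b))
        rw [map_mul]
        exact Fixes.mul ha hb
      one_mem' := by
        show Fixes P (ρ 1)
        rw [map_one]
        exact Fixes.one
      inv_mem' := fun {a} ha => by
        show Fixes P (ρ a⁻¹)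
        rw [map_inv]
        exact Fixes.inv ha }
  have hApos : 0 < Nat.card A := Nat.card_pos
  have hxp0 : x ^ p ≠ 0 := pow_ne_zero p hx0
  have hxps : x ^ p - x ≠ 0 ∧ P.ord (x ^ p - x) = P.ord (x ^ p) := by
    rw [sub_eq_add_neg]
    refine P.ord_add_of_lt hxp0 (P.ge_neg (Or.inr ?_))
    rw [P.ord_pow hx0, hxA]
    have h2 : (2 : ℤ) ≤ p := by exact_mod_cast hp.two_le
    have h3 : (1 : ℤ) ≤ Nat.card A := by exact_mod_cast hApos
    nlinarith
  have hGfix : ∀ g : G, Fixes P (ρ g) := by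
    obtain ⟨w, hw0, hw, hword⟩ := hRMX k L G P ρ ⊤ FX (fun g => by
      show Fixes P (ρ g) ↔ _
      simp)
    have hwadj := hfixG w (fun g => hw g (Subgroup.mem_top g))
    have hadj : IntermediateField.adjoin k {x ^ p - x} ≤
        IntermediateField.adjoin k {(x ^ p - x)⁻¹} := by
      rw [IntermediateField.adjoin_le_iff]
      rintro _ rfl
      have := (IntermediateField.adjoin k {(x ^ p - x)⁻¹}).inv_mem
        (IntermediateField.mem_adjoin_simple_self k (x ^ p - x)⁻¹)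
      rwa [inv_inv] at this
    have hord : P.ord (x ^ p - x)⁻¹ = ((Nat.card G : ℕ) : ℤ) := by
      rw [P.ord_inv hxps.1, hxps.2, P.ord_pow hx0, hxA, hcard]
      push_cast
      ring
    have hdvd := (hSLX k L P (x ^ p - x)⁻¹ (Nat.card G) Nat.card_pos (inv_ne_zero hxps.1) hord w
      (hadj hwadj) hw0).1
    rw [hword] at hdvd
    have hdvd' : Nat.card G ∣ Nat.card FX := by exact_mod_cast hdvd
    have htop : FX = ⊤ := by
      apply Subgroup.eq_top_of_card_eq
      exact Nat.dvd_antisymm (Subgroup.card_subgroup_dvd_card FX) hdvd'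
    intro g
    have : g ∈ FX := htop ▸ Subgroup.mem_top g
    exact this
  -- ramification groups
  have hr0 : ∀ g : G, g ∈ ram P ρ 0 := by
    intro g
    refine ⟨hGfix g, fun u hu hu1 => ?_⟩
    have h1 : P.Ge (ρ g u - u) 1 := by
      refine P.ge_sub ((hGfix g).ge ?_) ?_
      · exact Or.inr hu1.ge
      · exact Or.inr hu1.ge
    rcases h1 with h1 | h1
    · exact Or.inl (sub_eq_zero.1 h1)
    · right
      push_cast
      linarith
  have hr1 : ∀ g : G, g ∈ ram P ρ 1 := by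
    have key : ∀ (r : ℕ) (g : G), g ^ (p ^ r) = 1 → g ∈ ram P ρ 1 := by
      intro r
      induction r with
      | zero =>
        intro g hg
        rw [pow_zero, pow_one] at hg
        rw [hg]
        refine ⟨hGfix 1, fun u _ _ => Or.inl ?_⟩
        rw [map_one, AlgEquiv.one_apply]
      | succ r ih =>
        intro g hg
        refine hTMO p k L G P ρ hp hchar g (hr0 g) (ih (g ^ p) ?_)
        rw [← pow_mul, ← pow_succ', hg]
    intro g
    obtain ⟨r, hr⟩ := hGp g
    exact key r g hr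
  have hW1 : ((⊤ : Subgroup G) : Set G) = ram P ρ 1 := by
    ext g; simp [hr1 g]
  have hW0 : ((⊤ : Subgroup G) : Set G) = ram P ρ 0 := by
    ext g; simp [hr0 g]
  set b : G → ℤ := fun g => P.b (ρ g) with hbdef
  have hUM : UM b ⊤ := hUMW k L G P ρ ⊤ hρ hW1
  have hUMA : UM b A := hUM.mono le_top
  -- `U(A) = D0`
  obtain ⟨lA, hlA⟩ := exists_isLst b A hzA hz1
  have hUA : U b A lA = (D0 : ℚ) := by
    obtain ⟨g, hg, hg1, hgl⟩ := hlA.mem
    obtain ⟨N, hNA, hgN, hzN, hN⟩ := hELH p G A hp hEA g hg z hzA hg1 hz1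
    obtain ⟨y, D, hpD, hD, hy0, hy, hyc, hord, hDD⟩ := hJ N hNA hN
    have hDD0 := hDD hzN
    subst hDD0
    have hyord : P.ord y = -((D * Nat.card N : ℕ) : ℤ) := by
      have h1 : (p : ℤ) * P.ord y = (p : ℤ) * -((D * Nat.card N : ℕ) : ℤ) := by
        rw [hord, hxA, hN]
        push_cast
        ring
      exact mul_left_cancel₀ (by exact_mod_cast hp.ne_zero) h1
    have hsm : ∀ g' ∈ A, g' ∉ N → sm b {x | g'⁻¹ * x ∈ N} = Nat.card N * (D : ℤ) := by
      intro g' hg' hg'N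
      obtain ⟨c, hc0, hc⟩ := hyc g' hg' hg'N
      refine hHBX p k L G P ρ N A g' y c D hp hchar hρ hNA (fun a _ => hr1 a) ?_ hg' hg'N hy hy0
        hc0 hc hyord hpD hD
      intro a ha m hm
      have h2 := hEA.2 a ha m (hNA hm)
      rw [h2, mul_inv_cancel_right]
      exact hm
    have hcmb := hCMB p G b N A (D : ℤ) lA hp hUMA hNA hN hsm hlA
    have := hcmb.2 ⟨g, hg, hgN, hgl⟩
    rw [this]
    push_cast
    rfl
  -- `A ≤ G`
  have hindex : A.index = p := by
    have h1 := A.card_mul_index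
    rw [hcard, mul_comm] at h1
    exact Nat.eq_of_mul_eq_mul_right hApos h1
  have hAnormal : A.Normal := by
    apply Subgroup.normal_of_index_eq_minFac_card
    rw [hindex, hGn, Nat.Prime.pow_minFac hp (Nat.succ_ne_zero n)]
  obtain ⟨lG, hlG⟩ := exists_isLst b ⊤ (Subgroup.mem_top z) hz1
  have hsmG : ∀ g ∈ (⊤ : Subgroup G), g ∉ A → sm b {x | g⁻¹ * x ∈ A} = Nat.card A * (1 : ℤ) := by
    intro g _ hgA
    obtain ⟨c, hc0, hc⟩ := hGx g hgA
    have := hHBX p k L G P ρ A ⊤ g x c 1 hp hchar hρ le_top (fun a _ => hr1 a)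
      (fun a _ m hm => hAnormal.conj_mem m hm a) (Subgroup.mem_top g) hgA hAx hx0 hc0 hc
      (by rw [hxA, one_mul]) (fun h => hp.one_lt.ne' (Nat.dvd_one.1 h)) le_rfl
    rw [this]
    push_cast
    rfl
  have hcardtop : Nat.card (⊤ : Subgroup G) = p * Nat.card A := by
    rw [Subgroup.card_top, hcard]
  have hcmbG := (hCMB p G b A ⊤ 1 lG hp hUM le_top hcardtop hsmG hlG).1
  have hUG : U b ⊤ lG = ((D0 : ℚ) + (p - 1)) / p := by
    have hp0 : (p : ℚ) ≠ 0 := by exact_mod_cast hp.ne_zero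
    rcases hcmbG with h1 | ⟨l', hl', h1⟩
    · exfalso
      have hcG : (0 : ℚ) < Nat.card (⊤ : Subgroup G) := by exact_mod_cast Nat.card_pos
      have h2 : (lG : ℚ) + sm b {g | g ∈ (⊤ : Subgroup G) ∧ g ≠ 1} = Nat.card (⊤ : Subgroup G) := by
        unfold U at h1
        rw [div_eq_iff hcG.ne'] at h1
        rw [h1]
        push_cast
        ring
      have h3 : lG + sm b {g | g ∈ (⊤ : Subgroup G) ∧ g ≠ 1} =
          (Nat.card (⊤ : Subgroup G) : ℤ) := by exact_mod_cast h2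
      have h4 := card_sub_one_le_sm (b := b) ⊤ hUM.pos
      have h5 : lG ≤ 1 := by linarith
      have h6 : ∀ g : G, g ≠ 1 → b g = 1 := fun g hg =>
        le_antisymm ((hlG.le g (Subgroup.mem_top g) hg).trans h5) (hUM.pos g (Subgroup.mem_top g) hg)
      have h7 := sm_eq_card_sub_one (b := b) A (fun g _ hg => h6 g hg)
      obtain ⟨g, hg, hg1, hgl⟩ := hlA.mem
      have h8 : lA = 1 := by rw [← hgl, h6 g hg1]
      have hcA : (0 : ℚ) < Nat.card A := by exact_mod_cast hApos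
      have h9 : U b A lA = 1 := by
        unfold U
        rw [h7, h8, div_eq_iff hcA.ne']
        push_cast
        ring
      rw [hUA] at h9
      have h10 : (2 : ℚ) ≤ D0 := by exact_mod_cast hD0
      linarith
    · have h2 : l' = lA := hl'.unique hlA
      rw [h2, hUA] at h1
      rw [eq_div_iff hp0, mul_comm, h1]
      push_cast
      ring
  have hcnv := hCNV k L G P ρ ⊤ ⊤ lG hρ hW1 hW0 hlG
  have hcG : (Nat.card (⊤ : Subgroup G) : ℚ) ≠ 0 := by
    have : 0 < Nat.card (⊤ : Subgroup G) := Nat.card_pos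
    exact_mod_cast this.ne'
  rw [← hUG]
  rwa [mul_comm, mul_div_assoc, div_self hcG, mul_one] at hcnv

end Pool.CND
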