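import Pool.Agent.H37.CNP.Stmts

/-!
# Row HBX: the number `B` of `HBP` from an Artin-Schreier generator
-/

set_option autoImplicit false

namespace Pool.CND

open Finset

/-- elements of `ram 1` other than `1` have `1 ≤ b` -/
theorem one_le_b_of_ram (hINJ : S_INJ) {k L G : Type} [Field k] [Field L] [Algebra k L] [Group G]
    {P : Place k L} {ρ : G →* (L ≃ₐ[k] L)} (hρ : Function.Injective ρ) {x : G}
    (hx : x ∈ ram P ρ 1) (hx1 : x ≠ 1) : 1 ≤ P.b (ρ x) := by
  obtain ⟨h1, h2⟩ := hx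
  rcases h2 P.pi P.pi_ne P.ord_pi with h3 | h3
  · exact absurd (hρ (by rw [map_one]; exact hINJ k L P (ρ x) P.pi h1 P.pi_ne P.ord_pi h3)) hx1
  · unfold Place.b
    push_cast at h3
    linarith

theorem hbx_thm (hHER : S_HER) (hFXP : S_FXP) (hRST : S_RST) (_hART : S_ART) (_hUMW : S_UMW)
    (hINJ : S_INJ) (hLO2 : S_LO2) : S_HBX := by
  classical
  intro p k L G _ _ _ _ _ P ρ N I g y c D hp hchar hρ hNI hI hnorm hg hgN hy hy0 hc hgy hord hpD hD
  have hfixI : ∀ x ∈ I, Fixes P (ρ x) := fun x hx => (hI x hx).1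
  have hfixN : ∀ n ∈ N, Fixes P (ρ n) := fun n hn => hfixI n (hNI hn)
  obtain ⟨F, hF, Q, hQ⟩ := hFXP k L G P ρ N hρ hfixN
  have hN1 : ∀ n ∈ N, g * n * g⁻¹ ∈ N := hnorm g hg
  have hN2 : ∀ n ∈ N, g⁻¹ * n * g ∈ N := fun n hn => by
    have := hnorm g⁻¹ (I.inv_mem hg) n hn
    rwa [inv_inv] at this
  obtain ⟨γ, hγ, hγfix⟩ := hRST k L G P ρ N F Q g hF hQ hN1 hN2 (hfixI g hg)
  have hyF : y ∈ F := (hF y).2 hy
  let Y : F := ⟨y, hyF⟩
  have hY0 : Y ≠ 0 := fun h => hy0 (congrArg Subtype.val h)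
  have hYc : γ Y - Y = algebraMap k F c := by
    apply Subtype.ext
    show ((γ Y : F) : L) - (Y : L) = ((algebraMap k F c : F) : L)
    rw [hγ]
    show ρ g y - y = algebraMap k L c
    rw [hgy]
    ring
  have hcF : algebraMap k F c ≠ 0 := by
    rw [Ne, map_eq_zero]
    exact hc
  have hγ1 : γ ≠ 1 := by
    intro h
    rw [h, AlgEquiv.one_apply, sub_self] at hYc
    exact hcF hYc.symm
  have hher := hHER k L G P ρ N F Q g γ hρ hfixN hF hQ hgN (hfixI g hg) hγ hγfix hγ1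
  have hNpos : (0 : ℤ) < Nat.card N := by exact_mod_cast Nat.card_pos
  have hb1 : 1 ≤ Q.b γ := by
    have h1 : ∀ x ∈ (univ : Finset G).filter (fun x => x ∈ {x : G | g⁻¹ * x ∈ N}),
        (1 : ℤ) ≤ P.b (ρ x) := by
      intro x hx
      have hx' : g⁻¹ * x ∈ N := by simpa using hx
      have hxI : x ∈ I := by
        have := I.mul_mem hg (hNI hx')
        rwa [mul_inv_cancel_left] at this
      refine one_le_b_of_ram hINJ hρ (hI x hxI) ?_
      rintro rfl
      rw [mul_one] at hx'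
      exact hgN (by simpa using N.inv_mem hx')
    have h2 : (1 : ℤ) ≤ sm (fun x => P.b (ρ x)) {x | g⁻¹ * x ∈ N} := by
      unfold sm
      have hgmem : g ∈ (univ : Finset G).filter (fun x => x ∈ {x : G | g⁻¹ * x ∈ N}) := by
        simp [N.one_mem]
      calc (1 : ℤ) ≤ P.b (ρ g) := h1 g hgmem
        _ ≤ _ := by
          convert Finset.single_le_sum (f := fun x => P.b (ρ x))
            (fun x hx => le_trans zero_le_one (h1 x hx)) hgmem
    rw [hher] at h2
    by_contra hcon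
    rw [not_le] at hcon
    have : Q.b γ ≤ 0 := by linarith
    nlinarith
  have hYord : Q.ord Y = -(D : ℤ) := by
    have h1 := hQ Y hY0
    have h2 : P.ord ((Y : F) : L) = -((D * Nat.card N : ℕ) : ℤ) := hord
    rw [h2] at h1
    push_cast at h1
    have h3 : (Nat.card N : ℤ) * (Q.ord Y + D) = 0 := by linarith
    rcases mul_eq_zero.1 h3 with h4 | h4
    · exact absurd h4 hNpos.ne'
    · linarith
  have hpi : γ Q.pi ≠ Q.pi := fun h => hγ1 (hINJ k F Q γ Q.pi hγfix Q.pi_ne Q.ord_pi h)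
  have hlo := hLO2 p k F Q γ Q.pi (Q.b γ) hp hchar hγfix Q.pi_ne Q.ord_pi hb1 hpi
    (by unfold Place.b; ring) Y hY0
  have hnd : ¬ (p : ℤ) ∣ Q.ord Y := by
    rw [hYord, dvd_neg]
    exact_mod_cast hpD
  have h5 := (hlo.1 hnd).2
  rw [hYc, Q.ord_const c hc, hYord] at h5
  rw [hher]
  have : Q.b γ = D := by linarith
  rw [this]

end Pool.CND
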